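import Pool.Agent.MP_1a6d78_lc.PR.Tab

/-! THEOREM SD, COUNT: Euler's inequality for a contracted plane map in static form. -/

namespace Pool.Agent.MP_1a6d78_lc.SDE

open Classical PR

/-- the relation `r` cut down to `A` -/
def rs (A : ℕ → Prop) (r : ℕ → ℕ → Prop) (x y : ℕ) : Prop := x = y ∨ (A x ∧ A y ∧ r x y)

/-- the number of classes of `r` that meet `A` -/
noncomputable def mcl (n : ℕ) (A : ℕ → Prop) (r : ℕ → ℕ → Prop) : ℕ := ncl n A (rs A r)

variable {n : ℕ} {A : ℕ → Prop} {r r' : ℕ → ℕ → Prop}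

theorem rs_eqv (h : Eqv n r) : Eqv n (rs A r) := by
  refine ⟨fun x _ => Or.inl rfl, ?_, ?_⟩
  · rintro x hx y hy (e | ⟨a, b, e⟩)
    · exact Or.inl e.symm
    · exact Or.inr ⟨b, a, h.2.1 x hx y hy e⟩
  · rintro x hx y hy z hz (e | ⟨a, b, e⟩) (e' | ⟨a', b', e'⟩)
    · exact Or.inl (e.trans e')
    · exact Or.inr (e ▸ ⟨a', b', e'⟩)
    · exact Or.inr (e' ▸ ⟨a, b, e⟩)
    · exact Or.inr ⟨a, b', h.2.2 x hx y hy z hz e e'⟩

theorem mcl_congr (h : ∀ x < n, ∀ y < n, A x → A y → (r x y ↔ r' x y)) :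
    mcl n A r = mcl n A r' :=
  nclK.congr fun x hx y hy => or_congr_right
    ⟨fun k => ⟨k.1, k.2.1, (h x hx y hy k.1 k.2.1).1 k.2.2⟩,
      fun k => ⟨k.1, k.2.1, (h x hx y hy k.1 k.2.1).2 k.2.2⟩⟩

theorem mcl_merge {a b : ℕ} (h : Eqv n r) (ha : a < n) (hb : b < n) (Aa : A a) (Ab : A b)
    (nr : ¬r a b) (e : ∀ x < n, ∀ y < n, r' x y ↔ Mg r a b x y) : mcl n A r' + 1 = mcl n A r := by
  refine nclK.merge (rs_eqv h) ha hb Aa Ab ?_ ?_ fun x hx y hy => ?_
  · rintro (k | k)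
    · exact nr (k ▸ h.1 a ha)
    · exact nr k.2.2
  · rintro x _ y _ (k | k) l
    · exact k ▸ l
    · exact k.2.1
  have up : ∀ {u v}, u < n → rs A r u v → A u ∨ A v → A u ∧ A v ∧ r u v := by
    rintro u v hu (k | k) l
    · subst k; exact ⟨l.elim id id, l.elim id id, h.1 u hu⟩
    · exact k
  constructor
  · rintro (k | ⟨ax, ay, k⟩)
    · exact Or.inl (Or.inl k)
    · rcases (e x hx y hy).1 k with k | ⟨k, l⟩ | ⟨k, l⟩
      · exact Or.inl (Or.inr ⟨ax, ay, k⟩)
      · exact Or.inr (Or.inl ⟨Or.inr ⟨ax, Aa, k⟩, Or.inr ⟨Ab, ay, l⟩⟩)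
      · exact Or.inr (Or.inr ⟨Or.inr ⟨ax, Ab, k⟩, Or.inr ⟨Aa, ay, l⟩⟩)
  · rintro ((k | ⟨ax, ay, k⟩) | ⟨k, l⟩ | ⟨k, l⟩)
    · exact Or.inl k
    · exact Or.inr ⟨ax, ay, (e x hx y hy).2 (Or.inl k)⟩
    · have k := up hx k (Or.inr Aa)
      have l := up hb l (Or.inl Ab)
      exact Or.inr ⟨k.1, l.2.1, (e x hx y hy).2 (Or.inr (Or.inl ⟨k.2.2, l.2.2⟩))⟩
    · have k := up hx k (Or.inr Ab)
      have l := up ha l (Or.inl Aa)
      exact Or.inr ⟨k.1, l.2.1, (e x hx y hy).2 (Or.inr (Or.inr ⟨k.2.2, l.2.2⟩))⟩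

theorem mcl_anti (h : ∀ x < n, ∀ y < n, r x y → r' x y) : mcl n A r' ≤ mcl n A r :=
  cnt_mono fun x hx k => ⟨k.1, fun y hy l => k.2 y hy
    (l.imp_right fun m => ⟨m.1, m.2.1, h x hx y hy m.2.2⟩)⟩

theorem cnt_two {P Q : ℕ → Prop} {a b : ℕ} (ha : a < n) (hb : b < n) (ab : a ≠ b) (Pa : P a)
    (Pb : P b) (h : ∀ d < n, Q d ↔ d ≠ a ∧ d ≠ b ∧ P d) : cnt n Q + 2 = cnt n P := by
  have h1 := Ncl.cnt_erase (P := P) (Q := fun d => d ≠ b ∧ P d) hb Pb fun _ _ => Iff.rfl
  have h2 := Ncl.cnt_erase (P := fun d => d ≠ b ∧ P d) (Q := Q) ha ⟨ab, Pa⟩ h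
  omega

theorem del_sw {γ : ℕ → ℕ} (g : Iv n γ) {a d : ℕ} (ha : a < n) :
    del γ a (sw a (γ a) d) = γ d := by
  by_cases h1 : d = a
  · simp [sw, del, h1]
  by_cases h2 : d = γ a
  · subst h2; simp [sw, del, h1, (g a ha).2]
  simp [sw, del, h1, h2]

variable {ρ β τ : ℕ → ℕ}

theorem euler_ind (p : Pm n ρ) (pl : Pl n ρ β) (cl : ∀ d < n, A d → A (β d))
    (fx : ∀ d < n, A d → τ d = d) :
    ∀ γ, Iv n γ → Sb n γ β → (∀ d < n, ¬A d → γ d = τ d) →
      cnt n (fun d => A d ∧ γ d ≠ d) + 4 * mcl n A (Conn n ρ γ) +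
          2 * mcl n A (Sc n fun d => ρ (τ d)) =
        2 * mcl n A (Sc n fun d => ρ (γ d)) + 4 * mcl n A (Conn n ρ τ) := by
  intro γ
  induction h : cnt n (fun d => A d ∧ γ d ≠ d) using Nat.strong_induction_on generalizing γ with
  | _ k ih =>
    intro g s t
    by_cases e : ∀ d < n, A d → γ d = d
    · have eq : ∀ d < n, γ d = τ d := fun d hd => by
        by_cases a : A d
        · rw [e d hd a, fx d hd a]
        · exact t d hd a
      have k0 : k = 0 := by
        rw [← h]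
        refine Nat.le_zero.1 ((cnt_mono (Q := fun _ => False)
          fun d hd u => u.2 (e d hd u.1)).trans ?_)
        simp [cnt]
      have h1 : mcl n A (Conn n ρ γ) = mcl n A (Conn n ρ τ) :=
        mcl_congr fun x _ y _ _ _ =>
          ⟨fun c => c.mono fun d hd => Or.inr (eq d hd),
            fun c => c.mono fun d hd => Or.inr (eq d hd).symm⟩
      have pg := (p.comp g.pm).1
      have h2 : mcl n A (Sc n fun d => ρ (γ d)) = mcl n A (Sc n fun d => ρ (τ d)) :=
        mcl_congr fun x hx y _ _ _ =>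
          ⟨fun c => c.congr pg (fun d hd => by rw [eq d hd]) hx,
            fun c => c.congr (fun d hd => by rw [← eq d hd]; exact pg d hd)
              (fun d hd => by rw [eq d hd]) hx⟩
      omega
    push Not at e
    obtain ⟨a, ha, Aa, e⟩ := e
    have b := (s a ha).resolve_left e
    have hb := (g a ha).1
    have Ab : A (γ a) := b ▸ cl a ha Aa
    have g0 := g.del ha
    have s0 := (del_sb n a γ).trans s
    have da : del γ a a = a := by simp [del]
    have db : del γ a (γ a) = γ a := by simp [del]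
    have c2 : cnt n (fun d => A d ∧ del γ a d ≠ d) + 2 = k := by
      rw [← h]
      refine cnt_two ha hb e.symm ⟨Aa, e⟩ ⟨Ab, by rw [(g a ha).2]; exact e.symm⟩ fun d _ => ?_
      unfold del
      split_ifs with c
      · constructor
        · exact fun u => absurd rfl u.2
        · exact fun u => (c.elim u.1 u.2.1).elim
      · push Not at c
        exact ⟨fun u => ⟨c.1, c.2, u⟩, fun u => u.2.2⟩
    have IH := ih _ (by omega) (del γ a) rfl g0 s0 fun d hd u => by
      rw [← t d hd u, del, if_neg]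
      rintro (c | c)
      · exact u (c ▸ Aa)
      · exact u (c ▸ Ab)
    have pg := p.comp g.pm
    have p0 := p.comp g0.pm
    have cg : ∀ x < n, ∀ y < n, Conn n ρ γ x y ↔ Mg (Conn n ρ (del γ a)) a (γ a) x y := by
      intro x hx y hy
      rw [← nclK.add p g0 ha hb da db x hx y hy]
      exact ⟨fun c => c.mono fun d _ => Or.inr (del_sw g ha).symm,
        fun c => c.mono fun d _ => Or.inr (del_sw g ha)⟩
    by_cases cn : Conn n ρ (del γ a) a (γ a)
    · have sc : Sc n (fun d => ρ (del γ a d)) a (γ a) := by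
        rw [b] at cn ⊢
        exact pl _ g0 s0 a ha da cn
      have ns : ¬Sc n (fun d => ρ (γ d)) a (γ a) := fun k =>
        swapK.split p0 ha hb e.symm sc
          (k.congr pg.1 (fun d _ => by rw [del_sw g ha]) ha)
      have m1 : mcl n A (Sc n fun d => ρ (del γ a d)) + 1 = mcl n A (Sc n fun d => ρ (γ d)) := by
        refine mcl_merge pg.eqv ha hb Aa Ab ns fun x hx y hy => ?_
        rw [← swapK.merge pg ha hb ns x hx y hy]
        simp only [del_eq g ha]
      have m2 : mcl n A (Conn n ρ γ) = mcl n A (Conn n ρ (del γ a)) := by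
        refine mcl_congr fun x hx y hy _ _ => (cg x hx y hy).trans ⟨?_, Or.inl⟩
        rintro (k | ⟨k, l⟩ | ⟨k, l⟩)
        · exact k
        · exact k.trans (cn.trans l)
        · exact k.trans (cn.symm.trans l)
      omega
    · have ns : ¬Sc n (fun d => ρ (del γ a d)) a (γ a) := fun k => cn (k.conn p g0 ha)
      have m1 : mcl n A (Sc n fun d => ρ (γ d)) + 1 = mcl n A (Sc n fun d => ρ (del γ a d)) := by
        refine mcl_merge p0.eqv ha hb Aa Ab ns fun x hx y hy => ?_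
        rw [← swapK.merge p0 ha hb ns x hx y hy]
        simp only [del_sw g ha]
      have m2 := mcl_merge (Conn.eqv n ρ (del γ a)) ha hb Aa Ab cn cg
      omega

/-- all edges that are alive or in `τ` -/
noncomputable def gam (A : ℕ → Prop) (β τ : ℕ → ℕ) (d : ℕ) : ℕ := if A d then β d else τ d

theorem gam_iv (q : Iv n β) (t : Iv n τ) (cl : ∀ d < n, A d → A (β d))
    (fx : ∀ d < n, A d → τ d = d) : Iv n (gam A β τ) := by
  intro d hd
  unfold gam
  by_cases a : A d
  · rw [if_pos a, if_pos (cl d hd a)]; exact q d hd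
  · rw [if_neg a]
    by_cases c : A (τ d)
    · have := fx _ (t d hd).1 c
      rw [(t d hd).2] at this
      exact absurd (this ▸ c) a
    · rw [if_neg c]; exact t d hd

/-- EULER: darts alive `≤ 2 nodes + 2 faces` (no forest hypothesis). -/
theorem euler (p : Pm n ρ) (q : Iv n β) (pl : Pl n ρ β) (t : Iv n τ) (s : Sb n τ β)
    (cl : ∀ d < n, A d → A (β d)) (fx : ∀ d < n, A d → τ d = d) (nf : ∀ d < n, A d → β d ≠ d) :
    cnt n A ≤ 2 * mcl n A (Sc n fun d => ρ (τ d)) +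
      2 * mcl n A (Sc n fun d => ρ (gam A β τ d)) := by
  have h := euler_ind p pl cl fx (gam A β τ) (gam_iv q t cl fx)
    (fun d hd => by unfold gam; split_ifs; exacts [Or.inr rfl, s d hd])
    fun d _ a => if_neg a
  have h1 : cnt n (fun d => A d ∧ gam A β τ d ≠ d) = cnt n A :=
    cnt_congr fun d hd => ⟨fun k => k.1, fun k => ⟨k, by unfold gam; rw [if_pos k]; exact nf d hd k⟩⟩
  have h2 : mcl n A (Conn n ρ τ) ≤ mcl n A (Sc n fun d => ρ (τ d)) :=
    mcl_anti fun x hx y _ k => k.conn p t hx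
  omega

/-- `nx` is the first return map of `φ` to `A`. -/
def FR (n : ℕ) (A : ℕ → Prop) (φ nx : ℕ → ℕ) : Prop :=
  ∀ d < n, A d → ∃ t, nx d = φ^[t + 1] d ∧ A (nx d) ∧ ∀ s, 0 < s → s ≤ t → ¬A (φ^[s] d)

variable {φ nx : ℕ → ℕ}

theorem FR.lt (h : FR n A φ nx) (p : Pm n φ) {d : ℕ} (hd : d < n) (a : A d) :
    nx d < n ∧ A (nx d) := by
  obtain ⟨t, e, k, -⟩ := h d hd a
  exact ⟨e ▸ iter_inv (Q := fun a => a < n) p.1 hd _, k⟩

theorem FR.iter (h : FR n A φ nx) (p : Pm n φ) {d : ℕ} (hd : d < n) (a : A d) (t : ℕ) :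
    nx^[t] d < n ∧ A (nx^[t] d) :=
  iter_inv (Q := fun x => x < n ∧ A x) (fun _ k => h.lt p k.1 k.2) ⟨hd, a⟩ t

theorem FR.sc (h : FR n A φ nx) (p : Pm n φ) {d : ℕ} (hd : d < n) (a : A d) (t : ℕ) :
    Sc n φ d (nx^[t] d) := by
  induction t with
  | zero => exact Sc.refl φ hd
  | succ t ih =>
    have k := h.iter p hd a t
    obtain ⟨u, e, -⟩ := h _ k.1 k.2
    rw [Function.iterate_succ_apply', e]
    exact ih.trans p.1 hd ((sc_iff p.1 k.1).2 ⟨_, rfl⟩)

theorem FR.ex (h : FR n A φ nx) (p : Pm n φ) (u : ℕ) :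
    ∀ d < n, A d → A (φ^[u] d) → ∃ t, nx^[t] d = φ^[u] d := by
  induction u using Nat.strong_induction_on with
  | _ u ih =>
    intro d hd a b
    rcases Nat.eq_zero_or_pos u with rfl | hu
    · exact ⟨0, rfl⟩
    obtain ⟨t, e, k, l⟩ := h d hd a
    have tu : t + 1 ≤ u := by
      by_contra c
      exact l u hu (by omega) b
    have e2 : φ^[u] d = φ^[u - (t + 1)] (nx d) := by
      rw [e, ← Function.iterate_add_apply, Nat.sub_add_cancel tu]
    obtain ⟨v, hv⟩ := ih (u - (t + 1)) (by omega) (nx d) (h.lt p hd a).1 k (e2 ▸ b)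
    exact ⟨v + 1, by rw [Function.iterate_succ_apply, hv, e2]⟩

/-- alive darts lie on one cycle of `φ` iff on one cycle of `nx` -/
theorem FR.sc_iff (h : FR n A φ nx) (p : Pm n φ) {a b : ℕ} (ha : a < n) (Aa : A a) (Ab : A b) :
    Sc n φ a b ↔ ∃ t, nx^[t] a = b := by
  constructor
  · intro k
    obtain ⟨u, rfl⟩ := (PR.sc_iff p.1 ha).1 k
    exact h.ex p u a ha Aa Ab
  · rintro ⟨t, rfl⟩
    exact h.sc p ha Aa t

theorem FR.inj (h : FR n A φ nx) (p : Pm n φ) {a b : ℕ} (ha : a < n) (hb : b < n) (Aa : A a)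
    (Ab : A b) (e : nx a = nx b) : a = b := by
  have key : ∀ {a b s t : ℕ}, a < n → b < n → A b → s < t → φ^[t + 1] a = φ^[s + 1] b →
      (∀ u, 0 < u → u ≤ t → ¬A (φ^[u] a)) → False := by
    intro a b s t ha hb Ab st e l
    have : φ^[s + 1] (φ^[t - s] a) = φ^[s + 1] b := by
      rw [← Function.iterate_add_apply, ← e]; congr 1; omega
    have := p.iter_inj _ (iter_inv (Q := fun a => a < n) p.1 ha _) hb this
    exact l (t - s) (by omega) (by omega) (this ▸ Ab)
  obtain ⟨t, e1, -, l1⟩ := h a ha Aa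
  obtain ⟨s, e2, -, l2⟩ := h b hb Ab
  rcases lt_trichotomy s t with k | k | k
  · exact (key ha hb Ab k (by rw [← e1, e, e2]) l1).elim
  · subst k
    exact p.iter_inj (s + 1) ha hb (by rw [← e1, e, e2])
  · exact (key hb ha Aa k (by rw [← e2, ← e, e1]) l2).elim

/-- faces: `nx ∘ β` is the first return map of `ρ ∘ gam`. -/
theorem FR.face (h : FR n A (fun d => ρ (τ d)) nx) (q : Iv n β) (cl : ∀ d < n, A d → A (β d))
    (fx : ∀ d < n, A d → τ d = d) :
    FR n A (fun d => ρ (gam A β τ d)) fun d => nx (β d) := by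
  intro d hd a
  have hb := (q d hd).1
  obtain ⟨t, e, k, l⟩ := h (β d) hb (cl d hd a)
  have key : ∀ s ≤ t, (fun d => ρ (gam A β τ d))^[s + 1] d = (fun d => ρ (τ d))^[s + 1] (β d) := by
    intro s hs
    induction s with
    | zero =>
      show ρ (gam A β τ d) = ρ (τ (β d))
      rw [gam, if_pos a, fx _ hb (cl d hd a)]
    | succ s ih =>
      rw [Function.iterate_succ_apply', ih (by omega),
        Function.iterate_succ_apply' (fun d => ρ (τ d)) (s + 1)]
      show ρ (gam A β τ _) = ρ (τ _)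
      rw [gam, if_neg (l (s + 1) (by omega) hs)]
  refine ⟨t, by rw [key t le_rfl]; exact e, k, fun s h0 hs => ?_⟩
  obtain ⟨s, rfl⟩ : ∃ u, s = u + 1 := ⟨s - 1, by omega⟩
  rw [key s (by omega)]
  exact l _ h0 hs

/-- Cycles are long or marked. -/
theorem FR.cyc (h : FR n A φ nx) (p : Pm n φ) (k : ℕ) (B : ℕ → Prop)
    (hB : ∀ d < n, A d → (∃ t, 0 < t ∧ t < k ∧ nx^[t] d = d) → ∃ u, B (nx^[u] d)) :
    k * mcl n A (Sc n φ) ≤ cnt n A + k * cnt n B := by
  set R : ℕ → Prop := fun d => A d ∧ ∀ e < n, rs A (Sc n φ) d e → d ≤ e with hR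
  set S : ℕ → Prop := fun d => ∃ t, 0 < t ∧ t < k ∧ nx^[t] d = d with hS
  have same : ∀ a < n, ∀ b < n, R a → R b → ∀ u v, nx^[u] a = nx^[v] b → a = b := by
    intro a ha b hb ra rb u v e
    have k1 := h.sc p ha ra.1 u
    have k2 := h.sc p hb rb.1 v
    have ab : Sc n φ a b := k1.trans p.1 ha (e ▸ k2.symm p hb)
    exact le_antisymm (ra.2 b hb (Or.inr ⟨ra.1, rb.1, ab⟩))
      (rb.2 a ha (Or.inr ⟨rb.1, ra.1, ab.symm p ha⟩))
  have h1 : mcl n A (Sc n φ) ≤ cnt n (fun d => R d ∧ S d) + cnt n fun d => R d ∧ ¬S d :=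
    le_trans (cnt_mono fun d _ r => (Classical.em (S d)).imp (fun c => ⟨r, c⟩) fun c => ⟨r, c⟩) (cnt_or n _ _)
  have h2 : cnt n (fun d => R d ∧ S d) ≤ cnt n B := by
    choose! u hu using hB
    exact cnt_inj (fun d => nx^[u d] d)
      (fun d hd r => ⟨(h.iter p hd r.1.1 _).1, hu d hd r.1.1 r.2⟩)
      fun a ha b hb ra rb e => same a ha b hb ra.1 rb.1 _ _ e
  have h3 : cnt n (fun d => R d ∧ ¬S d) * k ≤ cnt n A := by
    unfold cnt
    conv_lhs => rw [← Finset.card_range k, ← Finset.card_product]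
    refine Finset.card_le_card_of_injOn (fun x => nx^[x.2] x.1) (fun x hx => ?_)
      fun x hx y hy e => ?_
    · simp only [Finset.coe_product, Set.mem_prod, Finset.coe_filter, Finset.mem_range,
        Set.mem_ofPred_eq, Finset.coe_range, Set.mem_Iio] at hx ⊢
      exact h.iter p hx.1.1 hx.1.2.1.1 _
    · simp only [Finset.coe_product, Set.mem_prod, Finset.coe_filter, Finset.mem_range,
        Set.mem_ofPred_eq, Finset.coe_range, Set.mem_Iio] at hx hy
      obtain ⟨a, i⟩ := x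
      obtain ⟨b, j⟩ := y
      have ab : a = b := same a hx.1.1 b hy.1.1 hx.1.2.1 hy.1.2.1 i j e
      subst ab
      have canc : ∀ s, ∀ x < n, ∀ y < n, A x → A y → nx^[s] x = nx^[s] y → x = y := by
        intro s x hx y hy ax ay e
        induction s with
        | zero => exact e
        | succ s ih =>
          rw [Function.iterate_succ_apply', Function.iterate_succ_apply'] at e
          exact ih (h.inj p (h.iter p hx ax s).1 (h.iter p hy ay s).1 (h.iter p hx ax s).2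
            (h.iter p hy ay s).2 e)
      have key : ∀ i j, i < j → j < k → nx^[i] a ≠ nx^[j] a := by
        intro i j ij jk e
        have k1 := h.iter p hx.1.1 hx.1.2.1.1 (j - i)
        refine hx.1.2.2 ⟨j - i, by omega, by omega, canc i _ k1.1 _ hx.1.1 k1.2 hx.1.2.1.1 ?_⟩
        rw [← Function.iterate_add_apply, e]; congr 1; omega
      rcases lt_trichotomy i j with c | c | c
      · exact absurd e (key i j c hy.2)
      · rw [c]
      · exact absurd e.symm (key j i c hx.2)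
  nlinarith [Nat.mul_le_mul_left k h1, Nat.mul_le_mul_left k h2]

/-- COUNT.  `D`: deletable darts; `L`: names of the low nodes without deletable dart. -/
theorem count (p : Pm n ρ) (q : Iv n β) (pl : Pl n ρ β) (t : Iv n τ) (s : Sb n τ β)
    (cl : ∀ d < n, A d → A (β d)) (fx : ∀ d < n, A d → τ d = d) (nf : ∀ d < n, A d → β d ≠ d)
    (h : FR n A (fun d => ρ (τ d)) nx) (D L : ℕ → Prop)
    (mono : ∀ d < n, A d → nx (β d) = d → D d)
    (bi : ∀ a < n, ∀ b < n, A a → A b → nx (β a) = b → nx (β b) = a → a ≠ b → b ≠ β a → D a ∨ D b)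
    (low : ∀ d < n, A d → (∃ t, 0 < t ∧ t < 7 ∧ nx^[t] d = d) →
      ∃ u, D (nx^[u] d) ∨ L (nx^[u] d)) :
    cnt n A ≤ 84 * (cnt n D + cnt n L) := by
  have e := euler p q pl t s cl fx nf
  have h1 := h.cyc (p.comp t.pm) 7 (fun d => D d ∨ L d) low
  have pf := p.comp (gam_iv q t cl fx).pm
  have hf := h.face q cl fx
  have h2 := hf.cyc pf 3 (fun d => D d ∨ L d) (by
    rintro a ha Aa ⟨u, h0, h3, eu⟩
    by_cases m : nx (β a) = a
    · exact ⟨0, Or.inl (mono a ha Aa m)⟩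
    have u2 : u = 2 := by
      rcases (by omega : u = 1 ∨ u = 2) with c | c
      · subst c; exact absurd eu m
      · exact c
    subst u2
    have e2 : nx (β (nx (β a))) = a := eu
    have hb := hf.lt pf ha Aa
    by_cases c : nx (β a) = β a
    · rw [c, (q a ha).2] at e2
      obtain ⟨v, hv⟩ := low a ha Aa ⟨1, by omega, by omega, e2⟩
      rw [Function.iterate_fixed e2] at hv
      exact ⟨0, hv⟩
    · rcases bi a ha _ hb.1 Aa hb.2 rfl e2 (Ne.symm m) c with k | k
      · exact ⟨0, Or.inl k⟩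
      · exact ⟨1, Or.inl k⟩)
  have h3 := cnt_or n D L
  omega

end Pool.Agent.MP_1a6d78_lc.SDE
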