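import Mathlib

/-! Abstract KEY lemmas for THEOREM SD (biased global coin, supermartingale `c ^ (1/32)`). -/

namespace SDKey
open Finset

/-- truncated geometric law on `range (Y+1)` -/
noncomputable def P (Y y : ℕ) : ℝ := if y < Y then 1 / 2 ^ (y + 1) else 1 / 2 ^ Y

lemma P_pos (Y y : ℕ) : 0 < P Y y := by unfold P; split_ifs <;> positivity

lemma geo_tail (t n : ℕ) (h : t ≤ n) :
    ∑ y ∈ range n, (if t ≤ y then (1 : ℝ) / 2 ^ (y + 1) else 0) = 1 / 2 ^ t - 1 / 2 ^ n := by
  induction n, h using Nat.le_induction with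
  | base =>
    rw [sum_eq_zero, sub_self]
    intro y hy
    rw [if_neg (by have := mem_range.1 hy; omega)]
  | succ n h ih =>
    rw [sum_range_succ, ih, if_pos h, pow_succ]
    field_simp
    ring

lemma P_tail (Y t : ℕ) (h : t ≤ Y) :
    ∑ y ∈ range (Y + 1), (if t ≤ y then P Y y else 0) = 1 / 2 ^ t := by
  rw [sum_range_succ, if_pos h]
  have : ∑ y ∈ range Y, (if t ≤ y then P Y y else 0)
      = ∑ y ∈ range Y, (if t ≤ y then (1 : ℝ) / 2 ^ (y + 1) else 0) := by
    refine sum_congr rfl fun y hy => ?_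
    unfold P; rw [if_pos (mem_range.1 hy)]
  rw [this, geo_tail t Y h]
  unfold P; rw [if_neg (lt_irrefl _)]; ring

lemma P_sum (Y : ℕ) : ∑ y ∈ range (Y + 1), P Y y = 1 := by
  have := P_tail Y 0 (Nat.zero_le _)
  simpa using this

lemma geo_mean (n : ℕ) :
    ∑ y ∈ range n, (1 : ℝ) / 2 ^ (y + 1) * y = 1 - (n + 1) / 2 ^ n := by
  induction n with
  | zero => simp
  | succ n ih =>
    rw [sum_range_succ, ih, pow_succ]
    push_cast
    field_simp
    ring

lemma P_mean (Y : ℕ) : ∑ y ∈ range (Y + 1), P Y y * y ≤ 1 := by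
  rw [sum_range_succ]
  have : ∑ y ∈ range Y, P Y y * y = ∑ y ∈ range Y, (1 : ℝ) / 2 ^ (y + 1) * y := by
    refine sum_congr rfl fun y hy => ?_
    unfold P; rw [if_pos (mem_range.1 hy)]
  rw [this, geo_mean]
  unfold P; rw [if_neg (lt_irrefl _)]
  have h : (0 : ℝ) < 2 ^ Y := by positivity
  have : (1 : ℝ) - (Y + 1) / 2 ^ Y + 1 / 2 ^ Y * Y = 1 - 1 / 2 ^ Y := by field_simp; ring
  rw [this]
  have : (0 : ℝ) < 1 / 2 ^ Y := by positivity
  linarith

/-- probability that a dart of cost `c` passes the test `c ≤ 2 ^ y * m` -/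
noncomputable def q (Y m c : ℕ) : ℝ := ∑ y ∈ range (Y + 1), (if c ≤ 2 ^ y * m then P Y y else 0)

lemma q_bounds (Y m c : ℕ) (hm : m ≤ c) (hc : c ≤ 2 ^ Y * m) :
    q Y m c * c ≤ m ∧ (m : ℝ) ≤ 2 * (q Y m c * c) := by
  have hex : ∃ t, c ≤ 2 ^ t * m := ⟨Y, hc⟩
  set t := Nat.find hex with ht
  have h1 : c ≤ 2 ^ t * m := Nat.find_spec hex
  have hY : t ≤ Y := Nat.find_min' hex hc
  have hq : q Y m c = 1 / 2 ^ t := by
    rw [← P_tail Y t hY]
    refine sum_congr rfl fun y _ => ?_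
    by_cases hy : t ≤ y
    · rw [if_pos hy, if_pos]
      exact h1.trans (Nat.mul_le_mul_right _ (Nat.pow_le_pow_right (by norm_num) hy))
    · rw [if_neg hy, if_neg (Nat.find_min hex (by omega))]
  have hp : (0 : ℝ) < 2 ^ t := by positivity
  rw [hq]
  constructor
  · have : (c : ℝ) ≤ 2 ^ t * m := by exact_mod_cast h1
    rw [div_mul_eq_mul_div, one_mul, div_le_iff₀ hp]; linarith
  · rcases Nat.eq_zero_or_pos t with h0 | h0
    · rw [h0]
      have : (m : ℝ) ≤ c := by exact_mod_cast hm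
      have : (0 : ℝ) ≤ c := by positivity
      simp; linarith
    · obtain ⟨s, hs⟩ : ∃ s, t = s + 1 := ⟨t - 1, by omega⟩
      have h2 : ¬ c ≤ 2 ^ s * m := Nat.find_min hex (by omega)
      have h3 : (2 : ℝ) ^ s * m ≤ c := by exact_mod_cast (not_le.1 h2).le
      rw [hs, pow_succ]
      have hp' : (0 : ℝ) < 2 ^ s := by positivity
      have : (2 : ℝ) * (1 / (2 ^ s * 2) * c) = c / 2 ^ s := by field_simp
      rw [this, le_div_iff₀ hp']; linarith

/-- ONE EDGE, ONE LEVEL.  `pick y j` is the index chosen by the moving node under the coin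
`(y, j)`, `j < 8`; `c` are the costs, `m` the least cost, `f < 8` the index of the representative,
`ce ≥ c f` the cost of the watched edge. -/
theorem key_step {ι : Type*} [DecidableEq ι] (Y m ce : ℕ) (c : ι → ℕ) (dart : ℕ → ι)
    (pick : ℕ → ℕ → ι) (jf : ℕ) (hjf : jf < 8) (hm : 1 ≤ m)
    (hlo : ∀ j < 8, m ≤ c (dart j)) (hhi : ∀ j < 8, c (dart j) ≤ 2 ^ Y * m)
    (hyes : ∀ y j, j < 8 → c (dart j) ≤ 2 ^ y * m → pick y j = dart j)
    (hno : ∀ y j, j < 8 → ¬ c (dart j) ≤ 2 ^ y * m → c (pick y j) = m)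
    (hce : c (dart jf) ≤ ce) :
    ∑ y ∈ range (Y + 1), ∑ j ∈ range 8, P Y y / 8 *
      (if pick y j = dart jf then 0 else ((ce + c (pick y j) : ℕ) : ℝ) ^ (1 / 32 : ℝ))
      ≤ (ce : ℝ) ^ (1 / 32 : ℝ) := by
  have hm' : (1 : ℝ) ≤ m := by exact_mod_cast hm
  have hf1 : (m : ℝ) ≤ c (dart jf) := by exact_mod_cast hlo jf hjf
  have hce' : (c (dart jf) : ℝ) ≤ ce := by exact_mod_cast hce
  have hcepos : (0 : ℝ) < ce := by linarith
  set A : ℝ := (ce : ℝ) ^ (1 / 32 : ℝ) with hA
  have hApos : 0 < A := Real.rpow_pos_of_pos hcepos _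
  -- pointwise bound
  have hpt : ∀ y j, (if pick y j = dart jf then 0 else ((ce + c (pick y j) : ℕ) : ℝ) ^ (1 / 32 : ℝ))
      ≤ A * (1 + (c (pick y j) : ℝ) / (32 * ce) - (if pick y j = dart jf then 1 else 0)) := by
    intro y j
    split_ifs with h
    · have : (0 : ℝ) ≤ (c (pick y j) : ℝ) / (32 * ce) := by positivity
      have := mul_nonneg hApos.le this
      linarith
    · have h1 : ((ce + c (pick y j) : ℕ) : ℝ) = ce * (1 + (c (pick y j) : ℝ) / ce) := by
        push_cast; field_simp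
      have h2 : (0 : ℝ) ≤ (c (pick y j) : ℝ) / ce := by positivity
      rw [h1, Real.mul_rpow hcepos.le (by linarith), sub_zero]
      refine mul_le_mul_of_nonneg_left ?_ hApos.le
      have := rpow_one_add_le_one_add_mul_self (s := (c (pick y j) : ℝ) / ce) (p := 1 / 32)
        (by linarith) (by norm_num) (by norm_num)
      refine this.trans (le_of_eq ?_)
      field_simp
  -- expected cost of the pick
  have hcost : ∀ j < 8, ∑ y ∈ range (Y + 1), P Y y * (c (pick y j) : ℝ) ≤ 2 * m := by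
    intro j hj
    have hb := (q_bounds Y m (c (dart j)) (hlo j hj) (hhi j hj)).1
    have h1 : ∑ y ∈ range (Y + 1), P Y y * (c (pick y j) : ℝ)
        ≤ ∑ y ∈ range (Y + 1), ((if c (dart j) ≤ 2 ^ y * m then P Y y else 0) * (c (dart j) : ℝ)
          + P Y y * m) := by
      refine sum_le_sum fun y _ => ?_
      have hp := (P_pos Y y).le
      by_cases h : c (dart j) ≤ 2 ^ y * m
      · rw [if_pos h, hyes y j hj h]
        have : 0 ≤ P Y y * m := by positivity
        linarith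
      · rw [if_neg h, hno y j hj h]; simp
    rw [sum_add_distrib, ← sum_mul, ← sum_mul, P_sum] at h1
    unfold q at hb
    linarith
  -- probability of the representative
  have hrep : (m : ℝ) / (2 * ce) ≤
      ∑ y ∈ range (Y + 1), ∑ j ∈ range 8, P Y y * (if pick y j = dart jf then (1 : ℝ) else 0) := by
    have hb := (q_bounds Y m (c (dart jf)) (hlo jf hjf) (hhi jf hjf)).2
    have hq0 : 0 ≤ q Y m (c (dart jf)) := by
      refine sum_nonneg fun y _ => ?_
      split_ifs
      · exact (P_pos Y y).le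
      · exact le_rfl
    have h1 : (m : ℝ) / (2 * ce) ≤ q Y m (c (dart jf)) := by
      rw [div_le_iff₀ (by positivity)]
      nlinarith [mul_le_mul_of_nonneg_left hce' hq0]
    refine h1.trans (sum_le_sum fun y _ => ?_)
    have hp := (P_pos Y y).le
    have hnn : ∀ j ∈ range 8, 0 ≤ P Y y * (if pick y j = dart jf then (1 : ℝ) else 0) := by
      intro j _
      split_ifs <;> simp [hp]
    refine le_trans ?_ (single_le_sum hnn (mem_range.2 hjf))
    by_cases h : c (dart jf) ≤ 2 ^ y * m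
    · rw [if_pos h, if_pos (hyes y jf hjf h), mul_one]
    · rw [if_neg h]; exact hnn jf (mem_range.2 hjf)
  have hcost' : ∑ y ∈ range (Y + 1), ∑ j ∈ range 8, P Y y * (c (pick y j) : ℝ) ≤ 16 * m := by
    rw [sum_comm]
    have := sum_le_sum (s := range 8) fun j hj => hcost j (mem_range.1 hj)
    simpa using this.trans (le_of_eq (by simp; ring))
  have hone : ∑ y ∈ range (Y + 1), ∑ _j ∈ range 8, P Y y = 8 := by
    simp only [sum_const, card_range, nsmul_eq_mul, ← mul_sum, P_sum]; norm_num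
  calc _ ≤ ∑ y ∈ range (Y + 1), ∑ j ∈ range 8, P Y y / 8 *
        (A * (1 + (c (pick y j) : ℝ) / (32 * ce) - (if pick y j = dart jf then 1 else 0))) := by
        refine sum_le_sum fun y _ => sum_le_sum fun j _ => ?_
        exact mul_le_mul_of_nonneg_left (hpt y j) (by have := P_pos Y y; positivity)
    _ = A / 8 * (∑ y ∈ range (Y + 1), ∑ _j ∈ range 8, P Y y
          + (∑ y ∈ range (Y + 1), ∑ j ∈ range 8, P Y y * (c (pick y j) : ℝ)) / (32 * ce)
          - ∑ y ∈ range (Y + 1), ∑ j ∈ range 8,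
              P Y y * (if pick y j = dart jf then (1 : ℝ) else 0)) := by
        simp only [sum_div, ← sum_add_distrib, ← sum_sub_distrib, mul_sum]
        refine sum_congr rfl fun y _ => sum_congr rfl fun j _ => ?_
        ring
    _ ≤ A / 8 * (8 + 16 * m / (32 * ce) - m / (2 * ce)) := by
        refine mul_le_mul_of_nonneg_left ?_ (by positivity)
        rw [hone]
        have : (∑ y ∈ range (Y + 1), ∑ j ∈ range 8, P Y y * (c (pick y j) : ℝ)) / (32 * ce)
            ≤ 16 * m / (32 * ce) := div_le_div_of_nonneg_right hcost' (by positivity)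
        linarith
    _ = A := by field_simp; ring

/-- some coin does not raise `Φ + y / K` by more than `1 / K` -/
theorem exists_coin (Y : ℕ) (K Φ : ℝ) (hK : 0 < K) (G : ℕ → ℕ → ℝ)
    (h : ∑ y ∈ range (Y + 1), ∑ j ∈ range 8, P Y y / 8 * G y j ≤ Φ) :
    ∃ y ≤ Y, ∃ j < 8, G y j + y / K ≤ Φ + 1 / K := by
  by_contra hcon
  push Not at hcon
  have h1 : ∑ y ∈ range (Y + 1), ∑ j ∈ range 8, P Y y / 8 * (Φ + 1 / K)
      < ∑ y ∈ range (Y + 1), ∑ j ∈ range 8, P Y y / 8 * (G y j + y / K) := by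
    refine sum_lt_sum_of_nonempty ⟨0, by simp⟩ fun y hy => ?_
    refine sum_lt_sum_of_nonempty ⟨0, by simp⟩ fun j hj => ?_
    refine mul_lt_mul_of_pos_left (hcon y (by have := mem_range.1 hy; omega) j (mem_range.1 hj)) ?_
    have := P_pos Y y; positivity
  have h2 : ∑ y ∈ range (Y + 1), ∑ j ∈ range 8, P Y y / 8 * (Φ + 1 / K) = Φ + 1 / K := by
    simp only [sum_const, card_range, nsmul_eq_mul]
    have : ∀ y ∈ range (Y + 1), ((8 : ℕ) : ℝ) * (P Y y / 8 * (Φ + 1 / K)) = P Y y * (Φ + 1 / K) := by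
      intro y _; push_cast; ring
    rw [sum_congr rfl this, ← sum_mul, P_sum, one_mul]
  have h3 : ∑ y ∈ range (Y + 1), ∑ j ∈ range 8, P Y y / 8 * (G y j + y / K)
      = ∑ y ∈ range (Y + 1), ∑ j ∈ range 8, P Y y / 8 * G y j
        + (∑ y ∈ range (Y + 1), P Y y * y) / K := by
    rw [sum_div, ← sum_add_distrib]
    refine sum_congr rfl fun y _ => ?_
    simp only [mul_add, sum_add_distrib, sum_const, card_range, nsmul_eq_mul]
    push_cast; ring
  have h4 : (∑ y ∈ range (Y + 1), P Y y * y) / K ≤ 1 / K :=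
    div_le_div_of_nonneg_right (P_mean Y) hK.le
  linarith

/-- a whole coin sequence: `run` plays a list of coins (newest coin at the head). -/
theorem exists_coins (Y : ℕ) (K : ℝ) (hK : 0 < K) (Φ : List (ℕ × ℕ) → ℝ)
    (h : ∀ l, ∑ y ∈ range (Y + 1), ∑ j ∈ range 8, P Y y / 8 * Φ ((y, j) :: l) ≤ Φ l) (T : ℕ) :
    ∃ l : List (ℕ × ℕ), l.length = T ∧ (∀ p ∈ l, p.1 ≤ Y ∧ p.2 < 8) ∧
      Φ l + ((l.map Prod.fst).sum : ℕ) / K ≤ Φ [] + T / K := by
  induction T with
  | zero => exact ⟨[], rfl, by simp, by simp⟩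
  | succ T ih =>
    obtain ⟨l, hl, hb, hΦ⟩ := ih
    obtain ⟨y, hy, j, hj, hc⟩ := exists_coin Y K (Φ l) hK (fun y j => Φ ((y, j) :: l)) (h l)
    refine ⟨(y, j) :: l, by simp [hl], ?_, ?_⟩
    · intro p hp
      rcases List.mem_cons.1 hp with rfl | hp
      · exact ⟨hy, hj⟩
      · exact hb p hp
    · simp only [List.map_cons, List.sum_cons]
      push_cast at hΦ ⊢
      rw [add_div, add_div]
      linarith

end SDKey
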