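import Pool.Agent.h69.SDEuler

/-! THEOREM SD, section 1: the two kinds of round keep the invariant. -/

namespace Pool.Agent.MP_1a6d78_lc.SDE

open Classical PR

variable {n : ℕ} {ρ β : ℕ → ℕ}

theorem FR.trans {A A' : ℕ → Prop} {φ ψ nx : ℕ → ℕ} (h : FR n A φ ψ) (p : Pm n φ)
    (sub : ∀ d < n, A' d → A d) (h' : FR n A' ψ nx) : FR n A' φ nx := by
  intro d hd a
  obtain ⟨t, e, k, l⟩ := h' d hd a
  have key : ∀ t, ∃ u, ψ^[t + 1] d = φ^[u + 1] d ∧ ∀ s, 0 < s → s ≤ u → A' (φ^[s] d) →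
      ∃ s', 0 < s' ∧ s' ≤ t ∧ φ^[s] d = ψ^[s'] d := by
    intro t
    induction t with
    | zero =>
      obtain ⟨u, e, -, l⟩ := h d hd (sub d hd a)
      exact ⟨u, e, fun s h0 hs c =>
        (l s h0 hs (sub _ (iter_inv (Q := fun a => a < n) p.1 hd s) c)).elim⟩
    | succ t ih =>
      obtain ⟨u, e, l⟩ := ih
      have k := h.iter p hd (sub d hd a) (t + 1)
      obtain ⟨v, e', -, l'⟩ := h _ k.1 k.2
      refine ⟨v + (u + 1), ?_, fun s h0 hs c => ?_⟩
      · rw [Function.iterate_succ_apply' ψ (t + 1), e', e, ← Function.iterate_add_apply]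
        congr 1; omega
      rcases lt_trichotomy s (u + 1) with c1 | c1 | c1
      · obtain ⟨s', a1, a2, a3⟩ := l s h0 (by omega) c
        exact ⟨s', a1, by omega, a3⟩
      · exact ⟨t + 1, by omega, le_rfl, by rw [c1, e]⟩
      · refine (l' (s - (u + 1)) (by omega) (by omega) ?_).elim
        rw [e, ← Function.iterate_add_apply, Nat.sub_add_cancel c1.le]
        exact sub _ (iter_inv (Q := fun a => a < n) p.1 hd s) c
  obtain ⟨u, e', l'⟩ := key t
  refine ⟨u, e.trans e', k, fun s h0 hs c => ?_⟩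
  obtain ⟨s', a1, a2, a3⟩ := l' s h0 hs c
  exact l s' a1 a2 (a3 ▸ c)

theorem FR.kap {A : ℕ → Prop} {τ γ κ nx : ℕ → ℕ} (h : FR n A (fun d => ρ (τ d)) nx)
    (p : Pm n fun d => ρ (τ d)) (fx : ∀ d < n, A d → τ d = d)
    (h1 : ∀ d < n, A d → κ d < n ∧ A (κ d) ∧ γ d = κ d) (h2 : ∀ d < n, ¬A d → γ d = τ d) :
    FR n A (fun d => ρ (γ d)) fun d => nx (κ d) := by
  intro d hd a
  obtain ⟨hb, ab, eb⟩ := h1 d hd a
  obtain ⟨t, e, k, l⟩ := h (κ d) hb ab
  have key : ∀ s ≤ t, (fun d => ρ (γ d))^[s + 1] d = (fun d => ρ (τ d))^[s + 1] (κ d) := by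
    intro s hs
    induction s with
    | zero =>
      show ρ (γ d) = ρ (τ (κ d))
      rw [eb, fx _ hb ab]
    | succ s ih =>
      rw [Function.iterate_succ_apply', ih (by omega),
        Function.iterate_succ_apply' (fun d => ρ (τ d)) (s + 1)]
      show ρ (γ _) = ρ (τ _)
      rw [h2 _ (iter_inv (Q := fun a => a < n) p.1 hb _) (l (s + 1) (by omega) hs)]
  refine ⟨t, by rw [key t le_rfl]; exact e, k, fun s h0 hs => ?_⟩
  obtain ⟨s, rfl⟩ : ∃ u, s = u + 1 := ⟨s - 1, by omega⟩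
  rw [key s (by omega)]
  exact l _ h0 hs

theorem FR.congr {A : ℕ → Prop} {φ ψ nx : ℕ → ℕ} (h : FR n A φ nx) (p : ∀ d < n, φ d < n)
    (e : ∀ d < n, φ d = ψ d) : FR n A ψ nx := by
  intro d hd a
  obtain ⟨t, e1, k, l⟩ := h d hd a
  have key : ∀ s, φ^[s] d = ψ^[s] d := by
    intro s
    induction s with
    | zero => rfl
    | succ s ih =>
      rw [Function.iterate_succ_apply', Function.iterate_succ_apply', ← ih,
        e _ (iter_inv (Q := fun a => a < n) p hd s)]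
  exact ⟨t, e1.trans (key _), k, fun s h0 hs => key s ▸ l s h0 hs⟩

/-- The first survivor among three steps. -/
theorem fr3 {A : ℕ → Prop} {ψ nx : ℕ → ℕ}
    (h : ∀ d < n, A d → A (ψ d) ∨ A (ψ (ψ d)) ∨ A (ψ (ψ (ψ d))))
    (e : ∀ d < n, A d → nx d =
      if A (ψ d) then ψ d else if A (ψ (ψ d)) then ψ (ψ d) else ψ (ψ (ψ d))) : FR n A ψ nx := by
  intro d hd a
  have e := e d hd a
  by_cases h1 : A (ψ d)
  · rw [if_pos h1] at e
    exact ⟨0, e, e ▸ h1, fun s h0 hs => by omega⟩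
  by_cases h2 : A (ψ (ψ d))
  · rw [if_neg h1, if_pos h2] at e
    refine ⟨1, e, e ▸ h2, fun s h0 hs => ?_⟩
    obtain rfl : s = 1 := by omega
    exact h1
  · rw [if_neg h1, if_neg h2] at e
    refine ⟨2, e, e ▸ ((h d hd a).resolve_left h1).resolve_left h2, fun s h0 hs => ?_⟩
    rcases (by omega : s = 1 ∨ s = 2) with rfl | rfl
    exacts [h1, h2]

/-- Walks in the tree: at most `k` tree edges. -/
inductive TW (n : ℕ) (ρ τ : ℕ → ℕ) (a : ℕ) : ℕ → ℕ → Prop
  | refl (k : ℕ) : TW n ρ τ a a k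
  | rot {b k : ℕ} : TW n ρ τ a b k → b < n → TW n ρ τ a (ρ b) k
  | edge {b k : ℕ} : TW n ρ τ a b k → b < n → TW n ρ τ a (τ b) (k + 1)

theorem TW.weak {τ : ℕ → ℕ} {a b k k' : ℕ} (h : TW n ρ τ a b k) (l : k ≤ k') :
    TW n ρ τ a b k' := by
  induction h generalizing k' with
  | refl => exact .refl _
  | rot _ hb ih => exact (ih l).rot hb
  | edge _ hb ih =>
    obtain ⟨m, rfl⟩ : ∃ m, k' = m + 1 := ⟨k' - 1, by omega⟩
    exact (ih (by omega)).edge hb

theorem TW.trans {τ : ℕ → ℕ} {a b c k k' : ℕ} (h : TW n ρ τ a b k) (h' : TW n ρ τ b c k') :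
    TW n ρ τ a c (k + k') := by
  induction h' with
  | refl => exact h.weak (by omega)
  | rot _ hb ih => exact ih.rot hb
  | edge _ hb ih => exact ih.edge hb

theorem TW.mono {τ τ' : ℕ → ℕ} (s : Sb n τ τ') {a b k : ℕ} (h : TW n ρ τ a b k) :
    TW n ρ τ' a b k := by
  induction h with
  | refl => exact .refl _
  | rot _ hb ih => exact ih.rot hb
  | edge _ hb ih =>
    rcases s _ hb with e | e <;> rw [e]
    · exact ih.weak (by omega)
    · exact ih.edge hb

theorem TW.conn {τ : ℕ → ℕ} {a b k : ℕ} (h : TW n ρ τ a b k) : Conn n ρ τ a b := by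
  induction h with
  | refl => exact Conn.refl _ _ _ _
  | rot _ hb ih => exact ih.trans (Conn.rho ρ τ hb)
  | edge _ hb ih => exact ih.trans (Conn.gam ρ τ hb)

/-- The state of a level: alive darts, tree edges, rotation of the nodes, depths. -/
structure St where
  A : ℕ → Prop
  τ : ℕ → ℕ
  nx : ℕ → ℕ
  dep : ℕ → ℕ

def St.cost (S : St) (β : ℕ → ℕ) (d : ℕ) : ℕ := 1 + S.dep d + S.dep (β d)

structure Inv (n : ℕ) (ρ β : ℕ → ℕ) (R : ℕ) (S : St) : Prop where
  iv : Iv n S.τ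
  sb : Sb n S.τ β
  cl : ∀ d < n, S.A d → S.A (β d)
  fx : ∀ d < n, S.A d → S.τ d = d
  nf : ∀ d < n, S.A d → β d ≠ d
  fr : FR n S.A (fun d => ρ (S.τ d)) S.nx
  one : ∀ a < n, ∀ b < n, Conn n ρ S.τ a b → Sc n (fun d => ρ (S.τ d)) a b
  db : ∀ d < n, S.A d → S.dep d ≤ R
  gh : ∃ G : ℕ → ℕ, (∀ d < n, G d ≤ R) ∧ (∀ d < n, S.A d → G d ≤ S.dep d) ∧
    ∀ a < n, ∀ b < n, Conn n ρ S.τ a b → TW n ρ S.τ a b (G a + G b)

variable {R r : ℕ} {S S' : St}

theorem Inv.weak (I : Inv n ρ β R S) {R' : ℕ} (h : R ≤ R') : Inv n ρ β R' S :=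
  { I with
    db := fun d hd a => (I.db d hd a).trans h
    gh := by
      obtain ⟨G, g1, g2⟩ := I.gh
      exact ⟨G, fun d hd => (g1 d hd).trans h, g2⟩ }

/-- DEPTH -/
theorem Inv.depth (I : Inv n ρ β R S) {a b : ℕ} (ha : a < n) (hb : b < n)
    (h : Conn n ρ S.τ a b) : TW n ρ S.τ a b (2 * R) := by
  obtain ⟨G, g1, -, g3⟩ := I.gh
  have := g1 a ha
  have := g1 b hb
  exact (g3 a ha b hb h).weak (by omega)

/-- The tree edges are bridges. -/
theorem Inv.forest (I : Inv n ρ β R S) (p : Pm n ρ) (pl : Pl n ρ β) {d : ℕ} (hd : d < n)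
    (e : S.τ d ≠ d) : ¬Conn n ρ (del S.τ d) d (S.τ d) := by
  intro cn
  have b := (I.sb d hd).resolve_left e
  have g0 := I.iv.del hd
  have hb := (I.iv d hd).1
  have sc : Sc n (fun x => ρ (del S.τ d x)) d (S.τ d) := by
    rw [b] at cn ⊢
    exact pl _ g0 ((del_sb n d _).trans I.sb) d hd (by simp [del]) cn
  exact swapK.split (p.comp g0.pm) hd hb e.symm sc
    ((I.one d hd _ hb (Conn.gam ρ _ hd)).congr (p.comp I.iv.pm).1
      (fun x _ => by rw [del_sw I.iv hd]) hd)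

/-- Alive darts: same node iff same tree. -/
theorem Inv.conn_iff (I : Inv n ρ β R S) (p : Pm n ρ) {a b : ℕ} (ha : a < n) (hb : b < n)
    (Aa : S.A a) (Ab : S.A b) : Conn n ρ S.τ a b ↔ ∃ t, S.nx^[t] a = b := by
  rw [← I.fr.sc_iff (p.comp I.iv.pm) ha Aa Ab]
  exact ⟨I.one a ha b hb, fun k => k.conn p I.iv ha⟩

theorem Inv.conn_iter (I : Inv n ρ β R S) (p : Pm n ρ) {a : ℕ} (ha : a < n) (Aa : S.A a) (t : ℕ) :
    Conn n ρ S.τ a (S.nx^[t] a) :=
  (I.fr.sc (p.comp I.iv.pm) ha Aa t).conn p I.iv ha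

theorem Inv.nxa (I : Inv n ρ β R S) (p : Pm n ρ) {a : ℕ} (ha : a < n) (Aa : S.A a) :
    S.nx a < n ∧ S.A (S.nx a) := I.fr.lt (p.comp I.iv.pm) ha Aa

theorem Inv.inj (I : Inv n ρ β R S) (p : Pm n ρ) {a b : ℕ} (ha : a < n) (hb : b < n)
    (Aa : S.A a) (Ab : S.A b) (e : S.nx a = S.nx b) : a = b :=
  I.fr.inj (p.comp I.iv.pm) ha hb Aa Ab e

/-- The start. -/
theorem inv_init (p : Pm n ρ) (q : Iv n β) (hA : ∀ d < n, S.A d ↔ β d ≠ d)
    (hτ : ∀ d < n, S.τ d = d) (hd : ∀ d < n, S.A d → S.dep d = 0) (hn : FR n S.A ρ S.nx) :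
    Inv n ρ β 0 S := by
  have iv : Iv n S.τ := fun d k => by rw [hτ d k, hτ d k]; exact ⟨k, rfl⟩
  have sc : ∀ a < n, ∀ b, Conn n ρ S.τ a b → Sc n ρ a b := by
    intro a ha b c
    have := Conn.ind (r := fun a b => a = b ∨ (a < n ∧ b < n ∧ Sc n ρ a b))
      ⟨fun _ => Or.inl rfl, ?_, ?_⟩ (fun a k => Or.inr ⟨k, p.1 a k, Sc.step p.1 k⟩)
      (fun a k => Or.inl (hτ a k).symm) c
    · rcases this with rfl | k
      exacts [Sc.refl ρ ha, k.2.2]
    · rintro x y (k | ⟨k1, k2, k3⟩)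
      exacts [Or.inl k.symm, Or.inr ⟨k2, k1, k3.symm p k1⟩]
    · rintro x y z (k | ⟨k1, k2, k3⟩) (l | ⟨l1, l2, l3⟩)
      exacts [Or.inl (k.trans l), Or.inr (k ▸ ⟨l1, l2, l3⟩), Or.inr (l ▸ ⟨k1, k2, k3⟩),
        Or.inr ⟨k1, l2, k3.trans p.1 k1 l3⟩]
  refine ⟨iv, fun d k => Or.inl (hτ d k), fun d k a => ?_, fun d k _ => hτ d k,
    fun d k a => (hA d k).1 a, hn.congr p.1 fun d k => by rw [hτ d k],
    fun a ha b _ c => (sc a ha b c).congr p.1 (fun d k => by rw [hτ d k]) ha,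
    fun d k a => (hd d k a).le, fun _ => 0, fun _ _ => le_rfl, fun _ _ _ => Nat.zero_le _,
    fun a ha b _ c => ?_⟩
  · rw [hA _ (q d k).1, (q d k).2]
    exact ((hA d k).1 a).symm
  · exact Sc.ind p.1 (Q := fun b => TW n ρ S.τ a b 0) ha (.refl 0) (fun d k w => w.rot k)
      (sc a ha b c)

/-- DELETE round: the darts in `K` die. -/
structure Del (n : ℕ) (ρ β : ℕ → ℕ) (r : ℕ) (S S' : St) (K : ℕ → Prop) : Prop where
  kA : ∀ d < n, K d → S.A d
  kb : ∀ d < n, K d → K (β d)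
  kn : ∀ d < n, K d → K (S.nx d) → S.nx d = d ∨ S.nx d = β d
  why : ∀ d < n, K d → r < S.cost β d ∨ Conn n ρ S.τ d (β d) ∨ ∃ g < n, S.A g ∧ ¬K g ∧
    Conn n ρ S.τ d g ∧ Conn n ρ S.τ (β d) (β g) ∧ S.cost β g ≤ S.cost β d
  eA : ∀ d < n, S'.A d ↔ S.A d ∧ ¬K d
  eτ : ∀ d < n, S'.τ d = S.τ d
  ed : ∀ d < n, S'.A d → S'.dep d = S.dep d
  en : ∀ d < n, S'.A d → S'.nx d = if S'.A (S.nx d) then S.nx d else
    if S'.A (S.nx (S.nx d)) then S.nx (S.nx d) else S.nx (S.nx (S.nx d))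

theorem Del.conn {K : ℕ → Prop} (D : Del n ρ β r S S' K) {a b : ℕ} :
    Conn n ρ S'.τ a b ↔ Conn n ρ S.τ a b :=
  ⟨fun c => c.mono fun d hd => Or.inr (D.eτ d hd),
    fun c => c.mono fun d hd => Or.inr (D.eτ d hd).symm⟩

theorem Del.inv {K : ℕ → Prop} (D : Del n ρ β r S S' K) (I : Inv n ρ β R S) (p : Pm n ρ)
    (q : Iv n β) : Inv n ρ β R S' := by
  have pf := p.comp I.iv.pm
  have sub : ∀ d < n, S'.A d → S.A d := fun d k a => ((D.eA d k).1 a).1
  have eφ : ∀ d < n, ρ (S.τ d) = ρ (S'.τ d) := fun d k => by rw [D.eτ d k]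
  have f3 : FR n S'.A S.nx S'.nx := by
    refine fr3 (fun d hd a => ?_) D.en
    obtain ⟨a, nk⟩ := (D.eA d hd).1 a
    have b1 := I.nxa p hd a
    have b2 := I.nxa p b1.1 b1.2
    have b3 := I.nxa p b2.1 b2.2
    by_contra c
    push Not at c
    have k1 : K (S.nx d) := by_contra fun k => c.1 ((D.eA _ b1.1).2 ⟨b1.2, k⟩)
    have k2 : K (S.nx (S.nx d)) := by_contra fun k => c.2.1 ((D.eA _ b2.1).2 ⟨b2.2, k⟩)
    have k3 : K (S.nx (S.nx (S.nx d))) := by_contra fun k => c.2.2 ((D.eA _ b3.1).2 ⟨b3.2, k⟩)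
    have n1 : S.nx (S.nx d) ≠ S.nx d := fun e => nk (I.inj p b1.1 hd b1.2 a e ▸ k1)
    have e2 := (D.kn _ b1.1 k1 k2).resolve_left n1
    rcases D.kn _ b2.1 k2 k3 with e | e
    · exact n1 (I.inj p b2.1 b1.1 b2.2 b1.2 e)
    · have : S.nx (S.nx (S.nx d)) = S.nx d := by rw [e, e2, (q _ b1.1).2]
      exact nk (I.inj p b2.1 hd b2.2 a this ▸ k2)
  obtain ⟨G, g1, g2, g3⟩ := I.gh
  refine ⟨fun d k => ?_, fun d k => D.eτ d k ▸ I.sb d k, fun d k a => ?_,
    fun d k a => (D.eτ d k).trans (I.fx d k (sub d k a)), fun d k a => I.nf d k (sub d k a),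
    (I.fr.trans pf sub f3).congr pf.1 eφ,
    fun a ha b hb c => (I.one a ha b hb (D.conn.1 c)).congr pf.1 eφ ha,
    fun d k a => D.ed d k a ▸ I.db d k (sub d k a), G, g1,
    fun d k a => D.ed d k a ▸ g2 d k (sub d k a),
    fun a ha b hb c => (g3 a ha b hb (D.conn.1 c)).mono fun d k => Or.inr (D.eτ d k).symm⟩
  · rw [D.eτ d k, D.eτ _ (I.iv d k).1]; exact I.iv d k
  · refine (D.eA _ (q d k).1).2 ⟨I.cl d k (sub d k a), fun c => ((D.eA d k).1 a).2 ?_⟩
    have := D.kb _ (q d k).1 c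
    rwa [(q d k).2] at this

/-- The contracted darts. -/
def Tr (β : ℕ → ℕ) (Sel : ℕ → Prop) (ch : ℕ → ℕ) (d : ℕ) : Prop :=
  (Sel d ∧ ch d = d) ∨ (Sel (β d) ∧ ch (β d) = β d)

/-- One step along the merged rotation. -/
noncomputable def psi (β nx : ℕ → ℕ) (T : ℕ → Prop) (d : ℕ) : ℕ := nx (if T d then β d else d)

/-- CONTRACT round: the nodes of the darts in `Sel` merge along the darts `ch`. -/
structure Con (n : ℕ) (β : ℕ → ℕ) (r : ℕ) (S S' : St) (Sel : ℕ → Prop) (ch : ℕ → ℕ) : Prop where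
  sA : ∀ d < n, Sel d → S.A d
  sn : ∀ d < n, Sel d → Sel (S.nx d) ∧ ch (S.nx d) = ch d
  cs : ∀ d < n, Sel d → ∃ t, S.nx^[t] d = ch d
  nb : ∀ d < n, Sel d → ¬Sel (β d)
  n2 : ∀ d < n, Sel d → Sel (β (S.nx (β d))) → ch (β (S.nx (β d))) = ch d
  cb : ∀ d < n, Sel d → S.cost β d ≤ r
  eA : ∀ d < n, S'.A d ↔ S.A d ∧ ¬Tr β Sel ch d
  eτ : ∀ d < n, S'.τ d = if Tr β Sel ch d then β d else S.τ d
  ed : ∀ d < n, S'.A d → S'.dep d = if Sel d then S.dep d + S.cost β (ch d) else S.dep d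
  en : ∀ d < n, S'.A d → S'.nx d =
    if S'.A (psi β S.nx (Tr β Sel ch) d) then psi β S.nx (Tr β Sel ch) d else
    if S'.A (psi β S.nx (Tr β Sel ch) (psi β S.nx (Tr β Sel ch) d)) then
      psi β S.nx (Tr β Sel ch) (psi β S.nx (Tr β Sel ch) d) else
      psi β S.nx (Tr β Sel ch) (psi β S.nx (Tr β Sel ch) (psi β S.nx (Tr β Sel ch) d))

section
variable {Sel : ℕ → Prop} {ch : ℕ → ℕ} (C : Con n β r S S' Sel ch) (I : Inv n ρ β R S)
  (p : Pm n ρ) (q : Iv n β)
include C I p q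

omit q in
theorem Con.sc {d e : ℕ} (hd : d < n) (he : e < n) (s : Sel d) (a : S.A e)
    (c : Conn n ρ S.τ d e) : Sel e ∧ ch e = ch d := by
  obtain ⟨t, rfl⟩ := (I.conn_iff p hd he (C.sA d hd s) a).1 c
  exact (iter_inv (Q := fun x => x < n ∧ Sel x ∧ ch x = ch d) (fun x k =>
    ⟨(I.nxa p k.1 (C.sA x k.1 k.2.1)).1, (C.sn x k.1 k.2.1).1,
      (C.sn x k.1 k.2.1).2.trans k.2.2⟩) ⟨hd, s, rfl⟩ t).2

omit q in
theorem Con.chs {d : ℕ} (hd : d < n) (s : Sel d) :
    ch d < n ∧ Sel (ch d) ∧ ch (ch d) = ch d ∧ Conn n ρ S.τ d (ch d) := by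
  obtain ⟨t, e⟩ := C.cs d hd s
  have a := C.sA d hd s
  have k := I.fr.iter (p.comp I.iv.pm) hd a t
  have c := I.conn_iter p hd a t
  rw [e] at k c
  exact ⟨k.1, (C.sc I p hd k.1 s k.2 c).1, (C.sc I p hd k.1 s k.2 c).2, c⟩

omit p in
theorem Con.tA {d : ℕ} (hd : d < n) (t : Tr β Sel ch d) : S.A d := by
  rcases t with t | t
  · exact C.sA d hd t.1
  · have := I.cl _ (q d hd).1 (C.sA _ (q d hd).1 t.1)
    rwa [(q d hd).2] at this

omit C I p in
theorem tr_b {d : ℕ} (hd : d < n) (t : Tr β Sel ch d) : Tr β Sel ch (β d) := by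
  unfold Tr at t ⊢
  rw [(q d hd).2]
  exact t.symm

omit p in
theorem Con.iv : Iv n S'.τ := by
  intro d hd
  rw [C.eτ d hd]
  by_cases t : Tr β Sel ch d
  · rw [if_pos t, C.eτ _ (q d hd).1, if_pos (tr_b q hd t)]; exact q d hd
  · rw [if_neg t, C.eτ _ (I.iv d hd).1, if_neg]
    · exact I.iv d hd
    · intro c
      have := I.fx _ (I.iv d hd).1 (C.tA I q (I.iv d hd).1 c)
      rw [(I.iv d hd).2] at this
      exact t (this ▸ c)

omit p in
theorem Con.sb : Sb n S.τ S'.τ := fun d hd => by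
  rw [C.eτ d hd]
  split_ifs with t
  · exact Or.inl (I.fx d hd (C.tA I q hd t))
  · exact Or.inr rfl

theorem Con.one_ind : ∀ γ, Iv n γ → Sb n γ β → (∀ d < n, ¬Tr β Sel ch d → γ d = S.τ d) →
    ∀ a < n, ∀ b < n, Conn n ρ γ a b → Sc n (fun d => ρ (γ d)) a b := by
  intro γ
  induction h : cnt n (fun d => Tr β Sel ch d ∧ γ d ≠ d) using Nat.strong_induction_on
    generalizing γ with
  | _ k ih =>
    intro g s t
    by_cases e : ∀ d < n, Tr β Sel ch d → γ d = d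
    · have eq : ∀ d < n, γ d = S.τ d := fun d hd => by
        by_cases a : Tr β Sel ch d
        · rw [e d hd a, I.fx d hd (C.tA I q hd a)]
        · exact t d hd a
      intro a ha b hb c
      exact (I.one a ha b hb (c.mono fun d hd => Or.inr (eq d hd))).congr (p.comp I.iv.pm).1
        (fun d hd => by rw [eq d hd]) ha
    push Not at e
    obtain ⟨i, hi, si, ci, e⟩ : ∃ i < n, Sel i ∧ ch i = i ∧ γ i ≠ i := by
      obtain ⟨a, ha, ta | ta, e⟩ := e
      · exact ⟨a, ha, ta.1, ta.2, e⟩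
      · have b := (s a ha).resolve_left e
        refine ⟨β a, (q a ha).1, ta.1, ta.2, ?_⟩
        rw [← b, (g a ha).2]
        exact e.symm
    have b := (s i hi).resolve_left e
    have hb := (g i hi).1
    have g0 := g.del hi
    have s0 := (del_sb n i γ).trans s
    have da : del γ i i = i := by simp [del]
    have db : del γ i (γ i) = γ i := by simp [del]
    have ti : Tr β Sel ch i := Or.inl ⟨si, ci⟩
    have IH := ih _ (by
      rw [← h]
      refine cnt_lt (a := i) (fun d _ u => ⟨u.1, fun v => u.2 ?_⟩) hi ⟨ti, e⟩ fun u => u.2 da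
      unfold del
      split_ifs
      exacts [rfl, v]) (del γ i) rfl g0 s0 fun d hd u => by
        rw [← t d hd u, del, if_neg]
        rintro (c | c)
        · exact u (c ▸ ti)
        · exact u (by rw [c, b]; exact tr_b q hi ti)
    have cn : ¬Conn n ρ (del γ i) i (γ i) := by
      intro c
      have := Conn.ind (r := fun x y => Conn n ρ S.τ i x ↔ Conn n ρ S.τ i y)
        ⟨fun _ => Iff.rfl, Iff.symm, Iff.trans⟩
        (fun x hx => ⟨fun k => k.trans (Conn.rho ρ _ hx), fun k => k.trans (Conn.rho ρ _ hx).symm⟩)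
        (fun x hx => ?_) c
      · have c := this.1 (Conn.refl _ _ _ _)
        rw [b] at c
        exact C.nb i hi si (C.sc I p hi (q i hi).1 si (I.cl i hi (C.sA i hi si)) c).1
      unfold del
      split_ifs with u
      · rfl
      push Not at u
      by_cases tx : Tr β Sel ch x
      · rcases s x hx with v | v <;> rw [v]
        have ax := C.tA I q hx tx
        refine iff_of_false (fun k => ?_) fun k => ?_
        · have k := C.sc I p hi hx si ax k
          rcases tx with w | w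
          · exact u.1 (by rw [← w.2, k.2, ci])
          · exact C.nb x hx k.1 w.1
        · have k := C.sc I p hi (q x hx).1 si (I.cl x hx ax) k
          rcases tx with w | w
          · exact C.nb x hx w.1 k.1
          · refine u.2 ?_
            rw [b, ← ci, ← k.2, w.2, (q x hx).2]
      · rw [t x hx tx]
        exact ⟨fun k => k.trans (Conn.gam ρ _ hx), fun k => k.trans (Conn.gam ρ _ hx).symm⟩
    have p0 := p.comp g0.pm
    have ns : ¬Sc n (fun d => ρ (del γ i d)) i (γ i) := fun k => cn (k.conn p g0 hi)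
    intro x hx y hy c
    have c1 := (nclK.add p g0 hi hb da db x hx y hy).1
      (c.mono fun d _ => Or.inr (del_sw g hi).symm)
    have c2 := swapK.merge p0 hi hb ns x hx y hy
    simp only [del_sw g hi] at c2
    refine c2.2 ?_
    rcases c1 with k | ⟨k, l⟩ | ⟨k, l⟩
    · exact Or.inl (IH x hx y hy k)
    · exact Or.inr (Or.inl ⟨IH x hx _ hi k, IH _ hb y hy l⟩)
    · exact Or.inr (Or.inr ⟨IH x hx _ hb k, IH _ hi y hy l⟩)

theorem Con.f3 : FR n S'.A (psi β S.nx (Tr β Sel ch)) S'.nx := by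
  refine fr3 (fun d hd a => ?_) C.en
  obtain ⟨a, nk⟩ := (C.eA d hd).1 a
  have pa : ∀ x < n, S.A x →
      psi β S.nx (Tr β Sel ch) x < n ∧ S.A (psi β S.nx (Tr β Sel ch) x) := fun x hx ax => by
    unfold psi
    split_ifs
    exacts [I.nxa p (q x hx).1 (I.cl x hx ax), I.nxa p hx ax]
  have back : ∀ x < n, S.A x → Sel (S.nx x) → Sel x := fun x hx ax k =>
    (C.sc I p (I.nxa p hx ax).1 hx k ax (I.conn_iter p hx ax 1).symm).1
  have b1 := pa d hd a
  have b2 := pa _ b1.1 b1.2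
  have b3 := pa _ b2.1 b2.2
  by_contra c
  push Not at c
  have k1 := by_contra fun k => c.1 ((C.eA _ b1.1).2 ⟨b1.2, k⟩)
  have k2 := by_contra fun k => c.2.1 ((C.eA _ b2.1).2 ⟨b2.2, k⟩)
  have k3 := by_contra fun k => c.2.2 ((C.eA _ b3.1).2 ⟨b3.2, k⟩)
  have e1 : psi β S.nx (Tr β Sel ch) d = S.nx d := by rw [psi, if_neg nk]
  generalize psi β S.nx (Tr β Sel ch) d = x at *
  have e2 : psi β S.nx (Tr β Sel ch) x = S.nx (β x) := by rw [psi, if_pos k1]
  generalize psi β S.nx (Tr β Sel ch) x = y at *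
  have e3 : psi β S.nx (Tr β Sel ch) y = S.nx (β y) := by rw [psi, if_pos k2]
  generalize psi β S.nx (Tr β Sel ch) y = z at *
  have fin : S.nx x ≠ x := fun e => nk (I.inj p b1.1 hd b1.2 a (e.trans e1) ▸ k1)
  have hx := (q x b1.1).1
  have ax := I.cl x b1.1 b1.2
  rcases k1 with k1 | k1
  · rcases k2 with k2 | k2
    · exact C.nb x b1.1 k1.1 (back _ hx ax (e2 ▸ k2.1))
    have e4 : β y = x := by
      rw [← k2.2, ← k1.2, e2]
      exact C.n2 x b1.1 k1.1 (e2 ▸ k2.1)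
    rw [e4] at e3
    have sz := C.sn x b1.1 k1.1
    rw [← e3] at sz
    rcases k3 with k3 | k3
    · exact fin (by rw [← e3, ← k3.2, sz.2, k1.2])
    · exact C.nb z b3.1 sz.1 k3.1
  · have sy := C.sn _ hx k1.1
    rw [← e2] at sy
    rcases k2 with k2 | k2
    swap
    · exact C.nb y b2.1 sy.1 k2.1
    have e4 : β y = x := by rw [← k2.2, sy.2, k1.2, (q x b1.1).2]
    rw [e4] at e3
    rcases k3 with k3 | k3
    · have := C.nb _ hx k1.1
      rw [(q x b1.1).2] at this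
      exact this (back x b1.1 b1.2 (e3 ▸ k3.1))
    · have := C.n2 _ hx k1.1
      rw [(q x b1.1).2, ← e3, k3.2, k1.2] at this
      exact fin (e3 ▸ q.pm.2 _ b3.1 _ b1.1 (this k3.1))

theorem Con.inv : Inv n ρ β (R + r) S' := by
  have iv := C.iv I q
  have sb : Sb n S'.τ β := fun d hd => by
    rw [C.eτ d hd]
    split_ifs
    exacts [Or.inr rfl, I.sb d hd]
  have sub : ∀ d < n, S'.A d → S.A d := fun d k a => ((C.eA d k).1 a).1
  have fr : FR n S.A (fun d => ρ (S'.τ d)) (psi β S.nx (Tr β Sel ch)) :=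
    I.fr.kap (κ := fun d => if Tr β Sel ch d then β d else d) (p.comp I.iv.pm) I.fx
      (fun d hd a => by
        rw [C.eτ d hd]
        split_ifs
        exacts [⟨(q d hd).1, I.cl d hd a, rfl⟩, ⟨hd, a, I.fx d hd a⟩])
      fun d hd a => by rw [C.eτ d hd, if_neg fun t => a (C.tA I q hd t)]
  obtain ⟨G, g1, g2, g3⟩ := I.gh
  have ex : ∀ d, (∃ e < n, Sel e ∧ Conn n ρ S.τ d e) →
      ∃ i < n, Sel i ∧ ch i = i ∧ Conn n ρ S.τ d i := by
    rintro d ⟨e, he, s, c⟩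
    obtain ⟨k1, k2, k3, k4⟩ := C.chs I p he s
    exact ⟨_, k1, k2, k3, c.trans k4⟩
  choose! pk p1 p2 p3 p4 using ex
  set M : ℕ → Prop := fun d => ∃ e < n, Sel e ∧ Conn n ρ S.τ d e with hM
  have pe : ∀ d, ∀ e < n, Sel e → Conn n ρ S.τ d e → pk d = ch e := fun d e he s c => by
    have m : M d := ⟨e, he, s, c⟩
    rw [← p3 d m]
    exact (C.sc I p he (p1 d m) s (C.sA _ (p1 d m) (p2 d m)) (c.symm.trans (p4 d m))).2
  have nM : ∀ i < n, Sel i → ¬M (β i) := by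
    rintro i hi s ⟨e, he, s', c⟩
    exact C.nb i hi s (C.sc I p he (q i hi).1 s' (I.cl i hi (C.sA i hi s)) c.symm).1
  set tg : ℕ → ℕ := fun d => if M d then β (pk d) else d with htg
  have resp : ∀ a b, Conn n ρ S.τ a b → Conn n ρ S.τ (tg a) (tg b) := by
    intro a b c
    by_cases m : M a
    · obtain ⟨e, he, s, c'⟩ := id m
      have m' : M b := ⟨e, he, s, c.symm.trans c'⟩
      simp only [htg, if_pos m, if_pos m', pe a e he s c', pe b e he s (c.symm.trans c')]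
      exact Conn.refl _ _ _ _
    · have m' : ¬M b := fun ⟨e, he, s, c'⟩ => m ⟨e, he, s, c.trans c'⟩
      simpa only [htg, if_neg m, if_neg m'] using c
  have t1 : ∀ i < n, Sel i → ch i = i → tg i = tg (β i) := fun i hi s e => by
    have m : M i := ⟨i, hi, s, Conn.refl _ _ _ _⟩
    simp only [htg, if_pos m, if_neg (nM i hi s), pe i i hi s (Conn.refl _ _ _ _), e]
  have tgc : ∀ a b, Conn n ρ S'.τ a b → Conn n ρ S.τ (tg a) (tg b) := fun a b c => by
    refine Conn.ind (r := fun a b => Conn n ρ S.τ (tg a) (tg b))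
      ⟨fun _ => Conn.refl _ _ _ _, Conn.symm, Conn.trans⟩
      (fun a k => resp _ _ (Conn.rho ρ _ k)) (fun a k => ?_) c
    rw [C.eτ a k]
    split_ifs with t
    · rcases t with t | t
      · rw [t1 a k t.1 t.2]; exact Conn.refl _ _ _ _
      · rw [t1 _ (q a k).1 t.1 t.2, (q a k).2]; exact Conn.refl _ _ _ _
    · exact resp _ _ (Conn.gam ρ _ k)
  have tw : ∀ d < n, tg d < n ∧ ∃ w, w + G (tg d) ≤ (if M d then G d + S.cost β (pk d) else G d) ∧
      TW n ρ S'.τ d (tg d) w ∧ TW n ρ S'.τ (tg d) d w := fun d hd => by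
    by_cases m : M d
    · have hi := p1 d m
      have ti : Tr β Sel ch (pk d) := Or.inl ⟨p2 d m, p3 d m⟩
      have ai := C.sA _ hi (p2 d m)
      have hb := (q _ hi).1
      simp only [htg, if_pos m]
      refine ⟨hb, G d + G (pk d) + 1, ?_, ?_, ?_⟩
      · have := g2 _ hi ai
        have := g2 _ hb (I.cl _ hi ai)
        unfold St.cost
        omega
      · have := ((g3 d hd _ hi (p4 d m)).mono (C.sb I q)).edge hi
        rwa [C.eτ _ hi, if_pos ti] at this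
      · have := (TW.refl (n := n) (ρ := ρ) (τ := S'.τ) (a := β (pk d)) 0).edge hb
        rw [C.eτ _ hb, if_pos (tr_b q hi ti), (q _ hi).2] at this
        exact (this.trans ((g3 _ hi d hd (p4 d m).symm).mono (C.sb I q))).weak (by omega)
    · simp only [htg, if_neg m]
      exact ⟨hd, 0, by omega, .refl 0, .refl 0⟩
  refine ⟨iv, sb, fun d k a => ?_, fun d k a => ?_, fun d k a => I.nf d k (sub d k a),
    fr.trans (p.comp iv.pm) sub (C.f3 I p q),
    C.one_ind I p q _ iv sb fun d k t => by rw [C.eτ d k, if_neg t], fun d k a => ?_,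
    fun d => if M d then G d + S.cost β (pk d) else G d, fun d k => ?_, fun d k a => ?_,
    fun a ha b hb c => ?_⟩
  · refine (C.eA _ (q d k).1).2 ⟨I.cl d k (sub d k a), fun c => ((C.eA d k).1 a).2 ?_⟩
    have := tr_b q (q d k).1 c
    rwa [(q d k).2] at this
  · rw [C.eτ d k, if_neg ((C.eA d k).1 a).2, I.fx d k (sub d k a)]
  · have := I.db d k (sub d k a)
    rw [C.ed d k a]
    split_ifs with s
    · have k := C.chs I p k s
      have := C.cb _ k.1 k.2.1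
      omega
    · omega
  · have := g1 d k
    show (if M d then _ else _) ≤ _
    split_ifs with m
    · have := C.cb _ (p1 d m) (p2 d m)
      omega
    · omega
  · have := g2 d k (sub d k a)
    show (if M d then _ else _) ≤ _
    rw [C.ed d k a]
    by_cases s : Sel d
    · rw [if_pos s, if_pos ⟨d, k, s, Conn.refl _ _ _ _⟩, pe d d k s (Conn.refl _ _ _ _)]
      omega
    · rw [if_neg s, if_neg]
      · exact this
      · rintro ⟨e, he, s', c⟩
        exact s (C.sc I p he k s' (sub d k a) c.symm).1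
  · obtain ⟨a1, w, a2, a3, -⟩ := tw a ha
    obtain ⟨b1, v, b2, -, b3⟩ := tw b hb
    exact ((a3.trans ((g3 _ a1 _ b1 (tgc a b c)).mono (C.sb I q))).trans b3).weak
      (by beta_reduce; omega)

end

end Pool.Agent.MP_1a6d78_lc.SDE
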