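import Pool.Agent.h69.SDStep
import Pool.Agent.h69.SDKey

/-! THEOREM SD, KEY: some sequence of coins loses none of `k` given edges. -/

namespace Pool.Agent.MP_1a6d78_lc.SDE

open Classical PR Finset

variable {n : ℕ} {ρ β : ℕ → ℕ} {R r : ℕ} {S S' : St}

/-- `f` is an alive dart between the nodes of the two ends of `e`. -/
def Rep (n : ℕ) (ρ β : ℕ → ℕ) (S : St) (e f : ℕ) : Prop :=
  f < n ∧ S.A f ∧ Conn n ρ S.τ e f ∧ Conn n ρ S.τ (β e) (β f)

/-- The potential of the edge `e`. -/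
noncomputable def val (n : ℕ) (ρ β : ℕ → ℕ) (r : ℕ) (S : St) (e : ℕ) : ℕ :=
  sInf {c | c = r + 1 ∨ (c = 0 ∧ Conn n ρ S.τ e (β e)) ∨ ∃ f, Rep n ρ β S e f ∧ c = S.cost β f}

theorem val_mem (e : ℕ) : val n ρ β r S e = r + 1 ∨
    (val n ρ β r S e = 0 ∧ Conn n ρ S.τ e (β e)) ∨
      ∃ f, Rep n ρ β S e f ∧ val n ρ β r S e = S.cost β f :=
  Nat.sInf_mem (s := {c | c = r + 1 ∨ (c = 0 ∧ Conn n ρ S.τ e (β e)) ∨
    ∃ f, Rep n ρ β S e f ∧ c = S.cost β f}) ⟨r + 1, Or.inl rfl⟩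

theorem val_top (e : ℕ) : val n ρ β r S e ≤ r + 1 := Nat.sInf_le (Or.inl rfl)

theorem val_in {e : ℕ} (h : Conn n ρ S.τ e (β e)) : val n ρ β r S e = 0 :=
  Nat.le_zero.1 (Nat.sInf_le (Or.inr (Or.inl ⟨rfl, h⟩)))

theorem val_rep {e f : ℕ} (h : Rep n ρ β S e f) : val n ρ β r S e ≤ S.cost β f :=
  Nat.sInf_le (Or.inr (Or.inr ⟨f, h, rfl⟩))

theorem val_end {e : ℕ} (h : ∀ d < n, ¬S.A d) (v : val n ρ β r S e ≤ r) :
    Conn n ρ S.τ e (β e) := by
  rcases val_mem (n := n) (ρ := ρ) (β := β) (r := r) (S := S) e with k | k | ⟨f, k, -⟩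
  · omega
  · exact k.2
  · exact (h f k.1 k.2.1).elim

theorem val_init (q : Iv n β) (hA : ∀ d < n, S.A d ↔ β d ≠ d)
    (hd : ∀ d < n, S.A d → S.dep d = 0) {e : ℕ} (he : e < n) : val n ρ β r S e ≤ 1 := by
  by_cases c : β e = e
  · rw [val_in (by rw [c]; exact Conn.refl _ _ _ _)]; omega
  · have a := (hA e he).2 c
    have b : S.A (β e) := (hA _ (q e he).1).2 (by rw [(q e he).2]; exact Ne.symm c)
    have := val_rep (r := r) (⟨he, a, Conn.refl _ _ _ _, Conn.refl _ _ _ _⟩ : Rep n ρ β S e e)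
    rwa [St.cost, hd e he a, hd _ (q e he).1 b] at this

theorem Del.val {K : ℕ → Prop} (D : Del n ρ β r S S' K) (I : Inv n ρ β R S) (p : Pm n ρ)
    (q : Iv n β) (e : ℕ) : val n ρ β r S' e ≤ val n ρ β r S e := by
  have I' := D.inv I p q
  have keep : ∀ g, Rep n ρ β S e g → ¬K g → SDE.val n ρ β r S' e ≤ S.cost β g := by
    intro g h k
    have a := (D.eA g h.1).2 ⟨h.2.1, k⟩
    have := val_rep (r := r) (⟨h.1, a, D.conn.2 h.2.2.1, D.conn.2 h.2.2.2⟩ : Rep n ρ β S' e g)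
    rwa [St.cost, D.ed g h.1 a, D.ed _ (q g h.1).1 (I'.cl g h.1 a)] at this
  rcases val_mem (n := n) (ρ := ρ) (β := β) (r := r) (S := S) e with k | k | ⟨f, h, k⟩
  · rw [k]; exact val_top e
  · rw [val_in (D.conn.2 k.2)]; omega
  rw [k]
  by_cases kf : K f
  · rcases D.why f h.1 kf with w | w | ⟨g, hg, a, kg, c1, c2, w⟩
    · exact (val_top e).trans w
    · rw [val_in (D.conn.2 (h.2.2.1.trans (w.trans h.2.2.2.symm)))]; omega
    · exact (keep g ⟨hg, a, h.2.2.1.trans c1, h.2.2.2.trans c2⟩ kg).trans w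
  · exact keep f h kf

section
variable {Sel : ℕ → Prop} {ch : ℕ → ℕ} (C : Con n β r S S' Sel ch) (I : Inv n ρ β R S)
  (p : Pm n ρ) (q : Iv n β)
include C I p q

omit p in
theorem Con.conn {a b : ℕ} (c : Conn n ρ S.τ a b) : Conn n ρ S'.τ a b := c.mono (C.sb I q)

theorem Con.keep {e f : ℕ} (h : Rep n ρ β S e f) (t : ¬Tr β Sel ch f) :
    val n ρ β r S' e ≤ S.cost β f + (if Sel f then S.cost β (ch f) else 0) +
      if Sel (β f) then S.cost β (ch (β f)) else 0 := by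
  have a := (C.eA f h.1).2 ⟨h.2.1, t⟩
  have := val_rep (r := r)
    (⟨h.1, a, C.conn I q h.2.2.1, C.conn I q h.2.2.2⟩ : Rep n ρ β S' e f)
  rw [St.cost, C.ed f h.1 a, C.ed _ (q f h.1).1 ((C.inv I p q).cl f h.1 a)] at this
  refine this.trans (le_of_eq ?_)
  conv_rhs => rw [St.cost]
  split_ifs <;> omega

omit p in
theorem Con.gone {e f : ℕ} (h : Rep n ρ β S e f) (t : Tr β Sel ch f) :
    val n ρ β r S' e = 0 := by
  have := Conn.gam ρ S'.τ h.1
  rw [C.eτ f h.1, if_pos t] at this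
  exact val_in ((C.conn I q h.2.2.1).trans (this.trans (C.conn I q h.2.2.2).symm))

end

/-- The rule by which a selected node picks its dart under the coin `(y, j)`. -/
def Pick (n : ℕ) (β : ℕ → ℕ) (r : ℕ) (S : St) (Sel : ℕ → Prop) (ch : ℕ → ℕ → ℕ → ℕ) : Prop :=
  ∀ d < n, Sel d → ∃ (dart : ℕ → ℕ) (m : ℕ), (∃ j < 8, dart j = d) ∧ 1 ≤ m ∧
    (∀ j < 8, m ≤ S.cost β (dart j) ∧ S.cost β (dart j) ≤ r) ∧
    (∀ y j, j < 8 → S.cost β (dart j) ≤ 2 ^ y * m → ch y j d = dart j) ∧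
    ∀ y j, j < 8 → ¬S.cost β (dart j) ≤ 2 ^ y * m → S.cost β (ch y j d) = m

/-- One level, for all coins. -/
def Lev (n : ℕ) (ρ β : ℕ → ℕ) (r : ℕ) (S : St) (N : ℕ → ℕ → St) : Prop :=
  (∀ y j, ∃ K, Del n ρ β r S (N y j) K) ∨
    ∃ Sel ch, (∀ y j, Con n β r S (N y j) Sel (ch y j)) ∧ Pick n β r S Sel ch

theorem Lev.inv {N : ℕ → ℕ → St} (L : Lev n ρ β r S N) (I : Inv n ρ β R S) (p : Pm n ρ)
    (q : Iv n β) (y j : ℕ) : Inv n ρ β (R + r) (N y j) := by
  rcases L with L | ⟨Sel, ch, L, -⟩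
  · obtain ⟨K, D⟩ := L y j
    exact (D.inv I p q).weak (by omega)
  · exact (L y j).inv I p q

theorem avg_le (Y : ℕ) (G : ℕ → ℕ → ℝ) (v : ℝ) (h : ∀ y j, G y j ≤ v) :
    ∑ y ∈ range (Y + 1), ∑ j ∈ range 8, SDKey.P Y y / 8 * G y j ≤ v := by
  calc _ ≤ ∑ y ∈ range (Y + 1), ∑ _j ∈ range 8, SDKey.P Y y / 8 * v :=
        sum_le_sum fun y _ => sum_le_sum fun j _ => mul_le_mul_of_nonneg_left (h y j)
          (by have := SDKey.P_pos Y y; positivity)
    _ = (∑ y ∈ range (Y + 1), SDKey.P Y y) * v := by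
        rw [sum_mul]
        refine sum_congr rfl fun y _ => ?_
        simp only [sum_const, card_range, nsmul_eq_mul]
        push_cast; ring
    _ = v := by rw [SDKey.P_sum, one_mul]

theorem rp_le {a b : ℕ} (h : a ≤ b) : (a : ℝ) ^ (1 / 32 : ℝ) ≤ (b : ℝ) ^ (1 / 32 : ℝ) :=
  Real.rpow_le_rpow (by positivity) (by exact_mod_cast h) (by norm_num)

theorem Lev.avg {N : ℕ → ℕ → St} (L : Lev n ρ β r S N) (I : Inv n ρ β R S) (p : Pm n ρ)
    (q : Iv n β) {Y : ℕ} (hY : r ≤ 2 ^ Y) (e : ℕ) :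
    ∑ y ∈ range (Y + 1), ∑ j ∈ range 8,
        SDKey.P Y y / 8 * (val n ρ β r (N y j) e : ℝ) ^ (1 / 32 : ℝ)
      ≤ (val n ρ β r S e : ℝ) ^ (1 / 32 : ℝ) := by
  rcases L with L | ⟨Sel, ch, L, P⟩
  · refine avg_le Y _ _ fun y j => ?_
    obtain ⟨K, D⟩ := L y j
    exact rp_le (D.val I p q e)
  rcases val_mem (n := n) (ρ := ρ) (β := β) (r := r) (S := S) e with k | k | ⟨f, h, k⟩
  · exact avg_le Y _ _ fun y j => rp_le (k ▸ val_top e)
  · exact avg_le Y _ _ fun y j => rp_le (by rw [val_in ((L y j).conn I q k.2)]; omega)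
  have hb := q f h.1
  have main : ∀ g < n, Sel g → S.cost β g = S.cost β f →
      (∀ y j, val n ρ β r (N y j) e ≤
        if ch y j g = g then 0 else S.cost β f + S.cost β (ch y j g)) →
      ∑ y ∈ range (Y + 1), ∑ j ∈ range 8,
        SDKey.P Y y / 8 * (val n ρ β r (N y j) e : ℝ) ^ (1 / 32 : ℝ)
      ≤ (val n ρ β r S e : ℝ) ^ (1 / 32 : ℝ) := by
    intro g hg s ec w
    obtain ⟨dart, m, ⟨jf, hj, ej⟩, hm, h1, h2, h3⟩ := P g hg s
    have := SDKey.key_step Y m (S.cost β f) (S.cost β) dart (fun y j => ch y j g) jf hj hm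
      (fun j k => (h1 j k).1)
      (fun j k => (h1 j k).2.trans (hY.trans (Nat.le_mul_of_pos_right _ hm))) h2 h3
      (by rw [ej, ec])
    rw [k]
    refine le_trans (sum_le_sum fun y _ => sum_le_sum fun j _ => mul_le_mul_of_nonneg_left ?_
      (by have := SDKey.P_pos Y y; positivity)) this
    have w := rp_le (w y j)
    rw [ej]
    split_ifs at w ⊢
    · simpa using w
    · exact w
  by_cases s1 : Sel f
  · have s2 := (L 0 0).nb f h.1 s1
    refine main f h.1 s1 rfl fun y j => ?_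
    split_ifs with c
    · exact ((L y j).gone I q h (Or.inl ⟨s1, c⟩)).le
    · have := (L y j).keep I p q h (by rintro (t | t); exacts [c t.2, s2 t.1])
      rwa [if_pos s1, if_neg s2, add_zero] at this
  by_cases s2 : Sel (β f)
  · refine main _ hb.1 s2 (by simp only [St.cost, hb.2]; omega) fun y j => ?_
    split_ifs with c
    · exact ((L y j).gone I q h (Or.inr ⟨s2, c⟩)).le
    · have := (L y j).keep I p q h (by rintro (t | t); exacts [s1 t.1, c t.2])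
      rwa [if_neg s1, if_pos s2, add_zero] at this
  · refine avg_le Y _ _ fun y j => rp_le ?_
    have := (L y j).keep I p q h (by rintro (t | t); exacts [s1 t.1, s2 t.1])
    rwa [if_neg s1, if_neg s2, add_zero, add_zero, ← k] at this

section
variable {X : List (ℕ × ℕ) → St} (p : Pm n ρ) (q : Iv n β) (h0 : Inv n ρ β 0 (X []))
  (hl : ∀ l, Lev n ρ β r (X l) fun y j => X ((y, j) :: l))
include p q h0 hl

theorem inv_all : ∀ l, Inv n ρ β (l.length * r) (X l)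
  | [] => by simpa using h0
  | (y, j) :: l => by
    rw [List.length_cons, Nat.succ_mul]
    exact (hl l).inv (inv_all l) p q y j

/-- KEY -/
theorem key {Y k : ℕ} (hY : r ≤ 2 ^ Y) (hk : (4 * k) ^ 32 ≤ r + 1) (E : Finset ℕ)
    (hE : E.card ≤ k) (h1 : ∀ e ∈ E, val n ρ β r (X []) e ≤ 1) (T : ℕ) :
    ∃ l : List (ℕ × ℕ), l.length = T ∧ (∀ c ∈ l, c.1 ≤ Y ∧ c.2 < 8) ∧
      (l.map Prod.fst).sum ≤ 2 * T + 2 ∧ ∀ e ∈ E, val n ρ β r (X l) e ≤ r := by
  set W : ℝ := ((r + 1 : ℕ) : ℝ) ^ (1 / 32 : ℝ) with hW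
  have Wp : 0 < W := Real.rpow_pos_of_pos (by positivity) _
  have Wk : (4 * k : ℝ) ≤ W := by
    have := rp_le hk
    rw [← hW] at this
    refine le_trans (le_of_eq ?_) this
    push_cast
    rw [one_div]
    exact (Real.pow_rpow_inv_natCast (n := 32) (by positivity) (by norm_num)).symm
  obtain ⟨l, a1, a2, a3⟩ := SDKey.exists_coins Y (4 * (T + 1)) (by positivity)
    (fun l => (∑ e ∈ E, (val n ρ β r (X l) e : ℝ) ^ (1 / 32 : ℝ)) / W) (fun l => by
      have := sum_le_sum (s := E) fun e _ => (hl l).avg (inv_all p q h0 hl l) p q hY e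
      refine le_trans (le_of_eq ?_) (div_le_div_of_nonneg_right this Wp.le)
      rw [sum_comm (s := E), sum_div]
      refine sum_congr rfl fun y _ => ?_
      rw [sum_comm (s := E), sum_div]
      refine sum_congr rfl fun j _ => ?_
      rw [← mul_sum, mul_div_assoc]) T
  have b1 : (∑ e ∈ E, (val n ρ β r (X []) e : ℝ) ^ (1 / 32 : ℝ)) / W ≤ 1 / 4 := by
    have : ∑ e ∈ E, (val n ρ β r (X []) e : ℝ) ^ (1 / 32 : ℝ) ≤ ∑ _e ∈ E, (1 : ℝ) :=
      sum_le_sum fun e he => by simpa using rp_le (h1 e he)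
    have c : (E.card : ℝ) ≤ k := by exact_mod_cast hE
    rw [sum_const, nsmul_eq_mul, mul_one] at this
    rw [div_le_iff₀ Wp]
    linarith
  have b2 : (T : ℝ) / (4 * (T + 1)) ≤ 1 / 4 := by
    rw [div_le_iff₀ (by positivity)]; linarith
  have nn : ∀ e ∈ E, 0 ≤ (val n ρ β r (X l) e : ℝ) ^ (1 / 32 : ℝ) := fun e _ => by positivity
  have b3 : 0 ≤ (∑ e ∈ E, (val n ρ β r (X l) e : ℝ) ^ (1 / 32 : ℝ)) / W :=
    div_nonneg (sum_nonneg nn) Wp.le
  have b4 : (0 : ℝ) ≤ ((l.map Prod.fst).sum : ℕ) / (4 * (T + 1)) := by positivity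
  refine ⟨l, a1, a2, ?_, fun e he => ?_⟩
  · have : (((l.map Prod.fst).sum : ℕ) : ℝ) / (4 * (T + 1)) ≤ 1 / 2 := by linarith
    rw [div_le_iff₀ (by positivity)] at this
    have : (((l.map Prod.fst).sum : ℕ) : ℝ) ≤ 2 * T + 2 := by linarith
    exact_mod_cast this
  · by_contra c
    have e1 : val n ρ β r (X l) e = r + 1 := le_antisymm (val_top e) (by omega)
    have e2 := single_le_sum nn he
    rw [e1, ← hW] at e2
    have : (∑ e ∈ E, (val n ρ β r (X l) e : ℝ) ^ (1 / 32 : ℝ)) / W ≤ 1 / 2 := by linarith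
    rw [div_le_iff₀ Wp] at this
    linarith

end

end Pool.Agent.MP_1a6d78_lc.SDE
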